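import Pool.Agent.X295.FamT

/-!
# MP_d83ecd_ag: Zilber-Pink for all but finitely many members of one-parameter families with few
degenerate members: algebraic parameters of bounded degree, radicals, and roots of unity

The Shimura variety `Y(1)^n` is identified with `ℂ^n` by the elliptic modular function
`jj = j = E₄³ / Δ`.

**Families.** Let `K ⊂ ℂ` be a countable field. We consider algebraic families `X_t` of
subsets of `Y(1)^n` with one parameter `t`, given by
* a family `B_t ⊆ P^N` of projective algebraic sets, defined by forms `G k` with coefficients in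
  `K[t]`,
* quotients `f_i = A_i / B_i` of forms of the same degree `δ_i` with coefficients in `K[t]`,
* functions `s_i` integral over `K[j]`, `R_i (s_i, j) = 0` with `R_i` monic in the first variable
  (level one: `R_i = S - J`, `s_i = j`; in general modular functions of any level without poles
  in the upper half plane), and polynomials `c_i ∈ K[t]`:
`X_t = {x | ∃ y ∈ B_t, ∃ s, ∀ i, R_i (s_i, x_i) = 0, c_i (t) s_i = A_i (y) / B_i (y)}`
(`scaledImage`), the image of a family of subvarieties of a product of modular curves of any levels.

The family degenerates at the rational values `t = α_1, …, α_M` of the parameter in the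
following sense: no point of `B_{α_l}` lies on `m + 1` of the divisors of the `f_i` (at `t = α_l`), and
the `c_i` have zeros at `α_l`, of orders `e_{l i} > 0`. Let `T` bound the degrees of the `R_i` (`T = 1`
for level one). We assume that one of the following two conditions holds (`Independent`):

* (strong) `L = m + 2`, and no product of some of the numbers `e_{l i}` (for a nonempty set of pairs
  `(l, i)`) with a positive number `a ≤ T^(2 M n)` is a square; for example, for `T = 1` the `e_{l i}`
  can be any distinct prime numbers;
* (weak) `L = C(min(m + 2, n), 2) + 1`, and `a e_{l i} e_{l j} e_{l' i} e_{l' j}` is not a square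
  for `l ≠ l'`, `i ≠ j`, `1 ≤ a ≤ T^8`.

**Theorem.**
1. Let the `α_l` be distinct. If `M ≥ L + 2 d` then for all but finitely many algebraic numbers `t` of
   degree at most `d` over the rational numbers the set `X_t` has no atypical intersection with special
   subvarieties `Z` of `Y(1)^n`: every irreducible closed subset of `X_t ∩ Z` has dimension at
   most `dim Z + m - n`, and the same bound holds for the transcendence degrees of the points of
   `X_t ∩ Z` over `K`. (For `m = 1` this means that `X_t` has no points on special subvarieties of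
   codimension at least two.)
2. Let the `α_l` be nonzero and the `|α_l|` distinct. If `M ≥ L + 2`, the same is true for all but
   finitely many of the radical numbers `t` (those with a positive power in `ℚ`, of any degree).
3. Let `|α_l| ≠ 0, 1` for all `l`. If `M ≥ L`, the same is true for all but finitely many of the roots
   of unity `t`.

The constant coordinates of `Z` can be special points or integral over the ring generated by any
given finite subset `Γ` of `K`.

**New.** The starting files `RationalParameters` and `AlgebraicParameters` need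
`M ≥ n (n - 1) / 2 + 1 + 2 d`, `M ≥ n (n - 1) / 2 + 3`, `M ≥ n (n - 1) / 2 + 1` degenerate members
in these three cases (and for families of curves `4 + 2 d`, `6`, `4`). Here the number of the
degenerate members does not depend on `n`: it is `m + 2 + 2 d`, `m + 4`, `m + 2`, so
`3 + 2 d`, `5`, `3` for families of curves. The proof: near a degenerate member all but `m` of
the coordinates have poles of prescribed orders, so the isogenies between them give squares. The
old argument finds two pairs of places for the same pair of coordinates by the pigeonhole principle;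
here a count of dimensions over the field of two elements for `m + 2` places gives an even set of
incidences of places and coordinates, and so a product of the orders which is a square up to a small
factor. For the parameters the arithmetic of the starting file `Pool.Agent.Y152.RP.Main` (prime factors
of the values of minimal polynomials) is used.
-/

set_option autoImplicit false

namespace Pool.Agent.Results.MP_d83ecd_ag.FewDegenerateMembers

open MvPolynomial
open Pool.Agent.Y152.RP.Fam (SpecialVariety NoAtypical InGeneralPosition scaledImage)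

/-- `t` is algebraic over the rational numbers, of degree at most `d`. -/
def DegreeAtMost (d : ℕ) (t : ℂ) : Prop :=
  ∃ F : Polynomial ℤ, F ≠ 0 ∧ F.natDegree ≤ d ∧ Polynomial.aeval t F = 0

/-- Some power of `t` with positive exponent is a rational number. -/
def IsRadical (t : ℂ) : Prop := ∃ N : ℕ, 0 < N ∧ ∃ q : ℚ, t ^ N = (q : ℂ)

/-- `t` is a root of unity. -/
def IsRootOfUnity (t : ℂ) : Prop := ∃ N : ℕ, 0 < N ∧ t ^ N = 1

/-- The orders `e` are positive and independent; then `L` degenerate members are sufficient. -/
def Independent {n M : ℕ} (T m L : ℕ) (e : Fin M → Fin n → ℕ) : Prop :=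
  (∀ l i, 0 < e l i) ∧
  ((L = m + 2 ∧ ∀ P : Finset (Fin M × Fin n), P.Nonempty → ∀ a, 0 < a → a ≤ T ^ (2 * (M * n)) →
    ¬ IsSquare (a * ∏ p ∈ P, e p.1 p.2)) ∨
  (L = (min (m + 2) n).choose 2 + 1 ∧ ∀ l l', l ≠ l' → ∀ i j, i ≠ j → ∀ a, 0 < a → a ≤ T ^ 8 →
    ¬ IsSquare (a * (e l i * e l j * (e l' i * e l' j)))))

/-- One-parameter families which degenerate at sufficiently many rational parameters, where the
number does not depend on `n`: all but finitely many of the members with parameters of bounded degree
(with radical parameters, with roots of unity as parameters) have no atypical intersection with special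
subvarieties. -/
theorem result (K : Subfield ℂ) [Countable K] (κ : Type) [Finite κ] (N n m M T L : ℕ)
    (G : κ → MvPolynomial (Fin (N + 1)) (Polynomial K)) (hG : ∀ k, ∃ e, (G k).IsHomogeneous e)
    (A B : Fin n → MvPolynomial (Fin (N + 1)) (Polynomial K)) (δ : Fin n → ℕ)
    (hA : ∀ i, (A i).IsHomogeneous (δ i)) (hB : ∀ i, (B i).IsHomogeneous (δ i))
    (R : Fin n → Polynomial (Polynomial K)) (hR : ∀ i, (R i).Monic)
    (hT : ∀ i u w, ((R i).coeff u).coeff w ≠ 0 → u ≤ T ∧ w ≤ T)
    (c : Fin n → Polynomial K) (α : Fin M → ℚ)
    (hind : Independent T m L fun l i => (c i).rootMultiplicity ((α l : ℚ) : K))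
    (hpos : ∀ l, InGeneralPosition ((α l : ℚ) : ℂ) m G A B) (Γ : Finset ℂ)
    (hΓ : ∀ γ ∈ Γ, γ ∈ K) :
    (Function.Injective α → ∀ d : ℕ, L + 2 * d ≤ M → {t : ℂ | DegreeAtMost d t ∧ ¬ NoAtypical
      (algebraMap (Algebra.adjoin ℤ (Γ : Set ℂ)) ℂ) K m (scaledImage t G A B R c)}.Finite) ∧
    ((∀ l, α l ≠ 0) → (∀ l l', l ≠ l' → |α l| ≠ |α l'|) → L + 2 ≤ M →
      {t : ℂ | IsRadical t ∧ ¬ NoAtypical (algebraMap (Algebra.adjoin ℤ (Γ : Set ℂ)) ℂ) K m
        (scaledImage t G A B R c)}.Finite) ∧
    ((∀ l, α l ≠ 0 ∧ |α l| ≠ 1) → L ≤ M →
      {t : ℂ | IsRootOfUnity t ∧ ¬ NoAtypical (algebraMap (Algebra.adjoin ℤ (Γ : Set ℂ)) ℂ) K m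
        (scaledImage t G A B R c)}.Finite) := by
  have hrad : ∀ t ∈ {t : ℂ | IsRadical t}, IsAlgebraic ℤ t := fun t ht =>
    Pool.Agent.Y152.RP.alg_of_rad ht
  have hun : ∀ t ∈ {t : ℂ | IsRootOfUnity t}, IsAlgebraic ℤ t := by
    rintro t ⟨N, hN, ht⟩
    exact Pool.Agent.Y152.RP.alg_of_rad ⟨N, hN, 1, by rw [ht, Rat.cast_one]⟩
  have hdeg : ∀ d, ∀ t ∈ {t : ℂ | DegreeAtMost d t}, IsAlgebraic ℤ t := by
    rintro d t ⟨F, hF0, -, hFt⟩
    exact ⟨F, hF0, hFt⟩
  have key : ∀ P : Set ℂ, (∀ t ∈ P, IsAlgebraic ℤ t) → L ≤ M →
      (∀ L' : ℕ, L' ≤ L → Pool.Agent.Y152.RP.Fam.ManyPrimes P L' α) →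
      {t : ℂ | t ∈ P ∧ ¬ NoAtypical (algebraMap (Algebra.adjoin ℤ (Γ : Set ℂ)) ℂ) K m
        (scaledImage t G A B R c)}.Finite := by
    intro P hP hLM hmany
    obtain ⟨h1, h2⟩ := Pool.Agent.X295.familyT K κ N n m M T G hG A B δ hA hB R hR hT c α hind.1
      hpos Γ hΓ P hP
    rcases hind.2 with ⟨hL, hs⟩ | ⟨hL, hs⟩
    · exact h2 (by omega) hs (hmany _ (by omega))
    · exact h1 (by omega) ⟨hind.1, hs⟩ (hmany _ (by omega))
  refine ⟨fun hinj d hM => ?_, fun h0 hdist hM => ?_, fun hne hM => ?_⟩
  · exact key _ (hdeg d) (by omega) fun L' hL' D =>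
      Pool.Agent.Y152.BD.finite_badD D d (by omega) α hinj
  · exact key _ hrad (by omega) fun L' hL' D =>
      Pool.Agent.Y152.RP.arithMain D _ M (by omega) α h0 hdist
  · exact key _ hun hM fun L' hL' D =>
      Pool.Agent.Y152.RP.unityMain (by omega) α (fun l => (hne l).1) (fun l => (hne l).2) D

end Pool.Agent.Results.MP_d83ecd_ag.FewDegenerateMembers
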