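import Pool.Agent.X295.Fam2

/-!
# MP_d83ecd_ag: Zilber-Pink for the members of families with any number of parameters, outside of a
set of parameters of the size of a hypersurface

The Shimura variety `Y(1)^n` is identified with `ℂ^n` by the elliptic modular function
`jj = j = E₄³ / Δ`. Let `K ⊂ ℂ` be a field of algebraic numbers.

**Families.** We consider algebraic families `X_u` of subsets of `Y(1)^n` with `q` parameters
`u = (u_1, …, u_q)`, given by
* a family `B_u ⊆ P^N` of projective algebraic sets, defined by forms `G k` with coefficients in
  `K[u_1, …, u_q]`,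
* quotients `f_i = A_i / B_i` of forms of the same degree `d_i` with coefficients in `K[u]`,
* functions `s_i` integral over `K[j]`, `R_i (s_i, j) = 0` with `R_i` monic in the first variable
  (level one: `R_i = S - J`, `s_i = j`; in general modular functions of any level without poles
  in the upper half plane), and polynomials `c_i ∈ K[u]`:
`X_u = {x | ∃ y ∈ B_u, ∃ s, ∀ i, R_i (s_i, x_i) = 0, c_i (u) s_i = A_i (y) / B_i (y)}`
(`scaledImage`), the image of a family of subvarieties of a product of modular curves of any levels.

**Degenerate divisors.** Let `h_1, …, h_M` be polynomials in `u` with integral coefficients,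
irreducible over `ℂ`. The family degenerates along the hypersurfaces `h_l = 0` of the space of
parameters in the following sense (`DegeneratesAlong`):
* `c_i` vanishes along `h_l = 0` exactly to the order `e_{l i} > 0`, and
* at one point `u` of the hypersurface `h_l = 0` (with algebraic coordinates) no point of `B_u` lies on
  `m + 1` of the divisors of the `f_i`.

**Theorem.** Suppose that one of the following two conditions holds, where `T` bounds the degrees of
the `R_i` (`T = 1` for level one):
1. `M ≥ m + 2`, and the orders are independent: no product of some of the numbers `e_{l i}` (for a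
   nonempty set of pairs `(l, i)`) with a positive number `a ≤ T^(2 M n)` is a square. For example, for
   `T = 1` the `e_{l i}` can be any distinct prime numbers.
2. `M ≥ C(min(m + 2, n), 2) + 1`, and `a e_{l i} e_{l j} e_{l' i} e_{l' j}` is not a square for
   `l ≠ l'`, `i ≠ j`, `1 ≤ a ≤ T^8`.
Then, for each `ε > 0`, for all but `O(H^(q - 1 + ε))` of the integral vectors `u` with `|u_j| ≤ H` the
set `X_u` has no atypical intersection with special subvarieties `Z` of `Y(1)^n`: every irreducible
closed subset of `X_u ∩ Z` has dimension at most `dim Z + m - n`, and the same bound holds for the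
transcendence degrees of the points of `X_u ∩ Z` over `K`. The constant coordinates of `Z` can be
special points or integral over the ring generated by any given finite subset `Γ` of `K`.

The exponent is best possible up to `ε`, as a hyperplane can consist of exceptional parameters.
Rational parameters are included: the points of `P^(q - 1)(ℚ)` are given by integral vectors `u`.
For `q ≥ 2` there is nothing of this kind in the starting files, which are about families with one
parameter. The numbers of degenerate members there are at least `n (n - 1) / 2 + 1`; here the number of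
the degenerate divisors does not depend on `n`, and nothing is assumed about the other points of the
hypersurfaces `h_l = 0`. For example let `B` be a projective variety of dimension `m`, and let the
parameters be `u_1, …, u_{m + 2}` and all the coefficients of the forms `A_i` and `B_i` of degree
`d_i`; for one hundred percent of the parameters, with a power saving, the image of `B` under
`(A_1 / (u^{e_1} B_1), …, A_n / (u^{e_n} B_n))`, `u^{e_i} = ∏_l u_l^{e_{l i}}`, `e_{l i}` distinct
primes, has no atypical intersections, for all `n`.

The proof has three parts: (a) elimination theory over the ring `K[u]`: general position at one point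
of `h_l = 0` gives general position modulo all large primes which divide `h_l (u)` and which do
not divide a certain number `ρ_l (u)`, where `ρ_l` does not contain one of the variables;
(b) the number of the `u` for which all large prime factors of `h_l (u)` divide `ρ_l (u)` is
`O(H^(q - 1 + ε))` (Rankin's method); (c) at a place over such a prime number all but `m` coordinates of
a point of `X_u` have poles of prescribed orders, and the isogenies between them give squares; for
`m + 2` places a count of dimensions over the field of two elements gives an even set of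
incidences, and so a contradiction to the independence of the orders.
-/

set_option autoImplicit false

namespace Pool.Agent.Results.MP_d83ecd_ag.MultiParameterFamilies

open MvPolynomial Pool.Agent.X295 Pool.Agent.Y152.RP.Fam

/-- Zilber-Pink for families with `q` parameters which degenerate along `m + 2` hypersurfaces (or
`C(min(m + 2, n), 2) + 1` hypersurfaces, under a weaker condition for the orders), for all but
`O(H^(q - 1 + ε))` of the integral parameters in a box of size `H`. -/
theorem result (K : Subfield ℂ) (hK : ∀ z ∈ K, IsAlgebraic ℚ z) (κ : Type) [Finite κ]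
    (q N n m M T : ℕ)
    (G : κ → MvPolynomial (Fin (N + 1)) (MvPolynomial (Fin q) K))
    (hG : ∀ k, ∃ e, (G k).IsHomogeneous e)
    (A B : Fin n → MvPolynomial (Fin (N + 1)) (MvPolynomial (Fin q) K)) (d : Fin n → ℕ)
    (hA : ∀ i, (A i).IsHomogeneous (d i)) (hB : ∀ i, (B i).IsHomogeneous (d i))
    (R : Fin n → Polynomial (Polynomial K)) (hR : ∀ i, (R i).Monic)
    (hT : ∀ i u w, ((R i).coeff u).coeff w ≠ 0 → u ≤ T ∧ w ≤ T)
    (c : Fin n → MvPolynomial (Fin q) K) (h : Fin M → MvPolynomial (Fin q) ℤ)
    (e : Fin M → Fin n → ℕ) (he : ∀ l i, 0 < e l i)
    (hdeg : ∀ l, DegeneratesAlong m G A B c (h l) (e l))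
    (Γ : Finset ℂ) (hΓ : ∀ γ ∈ Γ, γ ∈ K)
    (hM : (m + 2 ≤ M ∧ ∀ P : Finset (Fin M × Fin n), P.Nonempty → ∀ a, 0 < a →
        a ≤ T ^ (2 * (M * n)) → ¬ IsSquare (a * ∏ p ∈ P, e p.1 p.2)) ∨
      ((min (m + 2) n).choose 2 + 1 ≤ M ∧ ∀ l l', l ≠ l' → ∀ i j, i ≠ j → ∀ a, 0 < a →
        a ≤ T ^ 8 → ¬ IsSquare (a * (e l i * e l j * (e l' i * e l' j)))))
    (ε : ℝ) (hε : 0 < ε) :
    ∃ C : ℝ, ∀ H : ℕ, 1 ≤ H →
      ({u : Fin q → ℤ | (∀ j, |u j| ≤ H) ∧
        ¬ NoAtypical (algebraMap (Algebra.adjoin ℤ (Γ : Set ℂ)) ℂ) K m
          (scaledImage (fun j => (u j : ℂ)) G A B R c)}.ncard : ℝ) ≤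
        C * (H : ℝ) ^ ((q : ℝ) - 1 + ε) := by
  obtain ⟨C, hC⟩ := family K hK κ q N n m M T G hG A B d hA hB R hR hT c h e hdeg he Γ hΓ ε hε
    hM.symm
  refine ⟨C, fun H hH => ?_⟩
  have h1 : {u : Fin q → ℤ | (∀ j, |u j| ≤ H) ∧
        ¬ NoAtypical (algebraMap (Algebra.adjoin ℤ (Γ : Set ℂ)) ℂ) K m
          (scaledImage (fun j => (u j : ℂ)) G A B R c)} =
      {u : Fin q → ℤ | ¬ NoAtypical (algebraMap (Algebra.adjoin ℤ (Γ : Set ℂ)) ℂ) K m
        (scaledImage (fun j => (u j : ℂ)) G A B R c)} ∩ {u | ∀ j, |u j| ≤ H} := by
    ext u
    exact and_comm
  rw [h1]
  exact hC H hH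

end Pool.Agent.Results.MP_d83ecd_ag.MultiParameterFamilies
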