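import Pool.Agent.X295.GenOm

/-!
# MP_d83ecd_ag: Zilber-Pink for the members of families of curves in `Y(1)^n` with any number of
parameters which degenerate along one hypersurface

`Y(1)^n` is identified with `ℂ^n` by the elliptic modular function `jj = j = E₄³ / Δ`. A special
subvariety of `Y(1)^n` of dimension `r` is given by a `SpecialVariety`: its points are the points
`x` with `x_i = const_i` for the constant coordinates, and `x_i = j (g_i z_l)` for the coordinates of
class `l`, `z_1, …, z_r` free in the upper half plane and `g_i` a fixed integral matrix of positive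
determinant. In the definition of special subvarieties the constants are values of `j` at CM points.
We allow also all constants which are integral over the ring generated by a given finite set `Γ` of
algebraic numbers.

**Families of curves.** Let `F_t` be finitely many forms in the homogeneous coordinates
`(X_1, Z_1), …, (X_n, Z_n)` of `(P¹)^n` (the variables are `(i, false) = X_i` and `(i, true) = Z_i`,
and `x_i = X_i / Z_i`), whose coefficients are polynomials in the parameters `u_1, …, u_q` over the
field of the algebraic numbers. They define an algebraic family of subschemes `V_u` of `(P¹)^n`. Let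
`X_u ⊂ Y(1)^n` be the set of all `x` with
`h (u) ^ w_i g_i (u) x_i = a_i (u) y_i`, `y ∈ V_u ∩ ℂ^n`, where `h` is a polynomial with integral
coefficients, irreducible over `ℂ`, the `a_i` and `g_i` are polynomials over the algebraic numbers
which are not divisible by `h`, and `w_i > 0`. So the factors `a_i / (h ^ w_i g_i)` are any rational
functions of `u` with poles of arbitrary orders `w_i` along the hypersurface `h = 0`, and the curves
`X_u` tend to the cusp `(∞, …, ∞)` if `u` tends to this hypersurface. We assume that the generic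
member of the family `V_u` over the hypersurface `h = 0` is a curve in general position (`GoodAlong`):

* it is geometrically integral: for all algebraically closed fields `k` and all homomorphisms `π` from
  the ring of the polynomials in `u` to `k` with the kernel `(h)`, the ideals in the affine charts
  `Z_1 = … = Z_n = 1` and `X_b = 1`, `Z_i = 1` for `i ≠ b` are prime ideals, and the coordinates `x_i`
  are not constant;
* for `i ≠ j` the ideal generated by the `F_t` contains a form
  `∑_{u ≤ a, v ≤ b} g_{uv} X_i ^ u Z_i ^ (a - u) X_j ^ v Z_j ^ (b - v)`, where `g_{00}, g_{a0}, g_{0b},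
  g_{ab}` are not divisible by `h`, and where the form over `k` is not divisible by a form
  `X_i - c Z_i`. So the zeros and poles of `x_i` on the generic member are different from those of
  `x_j`, and it is a curve (for `n ≥ 2`) which is covered by the charts.

There is no condition on single members `V_u`, also not on the members over `h = 0`, which may be
singular or reducible, of any genus, and have varying moduli.

**Theorem.** Suppose that `h` contains the variable `u_{j0}`. There are a number `D` and a polynomial
`ρ ≠ 0` with integral coefficients which does not contain the variable `u_{j0}`, such that for all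
integral vectors `u` for which `h (u) ≠ 0` has a prime factor `p > D` which does not divide `ρ (u)`
the curve `X_u` satisfies the Zilber-Pink conjecture:

* there are only finitely many points of `X_u` on special subvarieties of codimension at least two,
* each proper special subvariety of `Y(1)^n` contains only finitely many points of `X_u`.

For all `ε > 0`, this is so for all but `O(H^(q - 1 + ε))` of the integral vectors `u` with
`|u_j| ≤ H`.

The exponent is best possible up to `ε`, as the members `X_u` over a hyperplane can be contained in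
proper special subvarieties. Rational parameters are included (homogeneous coordinates).

Earlier results: our file `MultiParameterFamilies` treats families of any dimension, but needs `m + 2`
degenerate divisors and independent orders (and has the conclusion that there are no atypical
intersections). The starting files on curves (`FamiliesOfCurves`, `AllButFinitelyManyMembers`,
`FamiliesAlmostAllParameters`, `OneDegenerateMember`, …) treat families near one fixed curve `V_0` in
general position, that is, degeneration at points of a base curve, or `CuspidalReduction`: single curves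
with good reduction in general position at a large prime number. Here the curves to which the family
degenerates vary with `q - 1` parameters, and the primes vary with `u`. The proof: the data of the
generic degenerate curve (Puiseux series, relations between monomials) are defined over a finitely
generated ring over the field of the functions on `h = 0`; homomorphisms of the coordinate ring of
`h = 0` to the algebraic closure of `𝔽_p` given by the points `u` modulo `p` extend to this ring, if
`p` does not divide a certain number `ρ (u)` (elimination theory, extension of places); the local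
theorem of the starting file `Pool.Agent.Y92.ZX.Core`; and Rankin's method for the counting.
-/

set_option autoImplicit false

namespace Pool.Agent.Results.MP_d83ecd_ag.OneDegenerateDivisor

open H294ZP UpperHalfPlane

/-- A special subvariety of dimension `r` of `Y(1)^n`. The constant coordinates are those with
`cls i = none`. The allowed constants are the singular moduli and the numbers which are integral
over the ring generated by `Γ`. -/
structure SpecialVariety (Γ : Set ℂ) (n r : ℕ) where
  cls : Fin n → Option (Fin r)
  surj : ∀ l : Fin r, ∃ i, cls i = some l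
  mat : Fin n → Matrix (Fin 2) (Fin 2) ℤ
  det_pos : ∀ i, 0 < (mat i).det
  const : Fin n → ℂ
  allowed : ∀ i, (∃ τ : ℍ, IsCM τ ∧ const i = jj τ) ∨ IsIntegral (Algebra.adjoin ℤ Γ) (const i)

/-- The points of a special subvariety of `Y(1)^n`. -/
def SpecialVariety.locus {Γ : Set ℂ} {n r : ℕ} (Z : SpecialVariety Γ n r) : Set (Fin n → ℂ) :=
  {x | ∃ z : Fin r → ℍ, ∀ i, (Z.cls i = none → x i = Z.const i) ∧
    ∀ l, Z.cls i = some l → ∃ w : ℍ,
      (w : ℂ) * (Z.mat i 1 0 * z l + Z.mat i 1 1) = Z.mat i 0 0 * z l + Z.mat i 0 1 ∧
      x i = jj w}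

/-- The homogeneous coordinates of the point with affine coordinates `y` in the chart `c` of
`(P¹)^n`. In the chart `none` they are `X_i = y_i`, `Z_i = 1` for all `i`, in the chart `some a`
they are `X_a = 1`, `Z_a = y_a`, and `X_i = y_i`, `Z_i = 1` for `i ≠ a`. -/
def coord {A : Type} [CommRing A] {n : ℕ} (c : Option (Fin n)) (y : Fin n → A)
    (q : Fin n × Bool) : A :=
  if c = some q.1 then (if q.2 then y q.1 else 1) else (if q.2 then 1 else y q.1)

/-- `F` is homogeneous in each pair of variables `(X_i, Z_i) = ((i, false), (i, true))`. -/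
def Multihomogeneous {A : Type} [CommRing A] {n : ℕ} (F : MvPolynomial (Fin n × Bool) A) : Prop :=
  ∃ δ : Fin n → ℕ, ∀ m ∈ F.support, ∀ i, m (i, false) + m (i, true) = δ i

/-- The form `∑ g_{uv} X_i ^ u Z_i ^ (a - u) X_j ^ v Z_j ^ (b - v)`. -/
noncomputable def pairForm {A : Type} [CommRing A] {n : ℕ} (i j : Fin n) (a b : ℕ)
    (g : ℕ → ℕ → A) : MvPolynomial (Fin n × Bool) A :=
  ∑ u ∈ Finset.range (a + 1), ∑ v ∈ Finset.range (b + 1),
    MvPolynomial.C (g u v) * MvPolynomial.X (i, false) ^ u * MvPolynomial.X (i, true) ^ (a - u) *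
      MvPolynomial.X (j, false) ^ v * MvPolynomial.X (j, true) ^ (b - v)

/-- The ring of the polynomials in the parameters over the field of the algebraic numbers. -/
abbrev Parameters (q : ℕ) : Type := MvPolynomial (Fin q) (algebraicClosure ℚ ℂ)

/-- A polynomial with integral coefficients as a polynomial over the algebraic numbers. -/
noncomputable def toParameters {q : ℕ} (h : MvPolynomial (Fin q) ℤ) : Parameters q :=
  MvPolynomial.map (Int.castRingHom (algebraicClosure ℚ ℂ)) h

/-- The ideal in the chart `c` of the member of the family at the point of the space of the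
parameters with values in the field `k` given by `π`. -/
noncomputable def chartIdeal {k : Type} [Field k] {n q : ℕ} {κ : Type} (π : Parameters q →+* k)
    (F : κ → MvPolynomial (Fin n × Bool) (Parameters q)) (c : Option (Fin n)) :
    Ideal (MvPolynomial (Fin n) k) :=
  Ideal.span (Set.range fun t =>
    MvPolynomial.eval₂ (MvPolynomial.C.comp π) (coord c MvPolynomial.X) (F t))

/-- The family is given by forms, and its generic member over the hypersurface `h = 0` is integral
and in general position. -/
structure GoodAlong {n q : ℕ} {κ : Type} (h : MvPolynomial (Fin q) ℤ)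
    (F : κ → MvPolynomial (Fin n × Bool) (Parameters q)) : Prop where
  form : ∀ t, Multihomogeneous (F t)
  prime : ∀ (k : Type) [Field k] [IsAlgClosed k] (π : Parameters q →+* k),
    RingHom.ker π = Ideal.span {toParameters h} → ∀ c, (chartIdeal π F c).IsPrime
  nonconstant : ∀ (k : Type) [Field k] [IsAlgClosed k] (π : Parameters q →+* k),
    RingHom.ker π = Ideal.span {toParameters h} → ∀ (i : Fin n) (c : k),
      MvPolynomial.X i - MvPolynomial.C c ∉ chartIdeal π F none
  general : ∀ i j : Fin n, i ≠ j → ∃ (a b : ℕ) (g : ℕ → ℕ → Parameters q),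
    ¬ toParameters h ∣ g 0 0 ∧ ¬ toParameters h ∣ g a 0 ∧ ¬ toParameters h ∣ g 0 b ∧
    ¬ toParameters h ∣ g a b ∧
    (∀ (k : Type) [Field k] [IsAlgClosed k] (π : Parameters q →+* k),
      RingHom.ker π = Ideal.span {toParameters h} →
      ∀ c : k, ∃ v ≤ b, ∑ u ∈ Finset.range (a + 1), π (g u v) * c ^ u ≠ 0) ∧
    pairForm i j a b g ∈ Ideal.span (Set.range F)

/-- The value at `u` of a polynomial in the parameters. -/
noncomputable def valueAt {q : ℕ} (u : Fin q → ℤ) : Parameters q →+* ℂ :=
  MvPolynomial.eval₂Hom (algebraMap (algebraicClosure ℚ ℂ) ℂ) fun l => (u l : ℂ)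

/-- The set `X_u`: all `x` with `b_i (u) x_i = a_i (u) y_i` for a point `y` of `V_u ∩ ℂ^n`. -/
def scaledMember {n q : ℕ} {κ : Type} (F : κ → MvPolynomial (Fin n × Bool) (Parameters q))
    (a b : Fin n → Parameters q) (u : Fin q → ℤ) : Set (Fin n → ℂ) :=
  {x | ∃ y : Fin n → ℂ, (∀ t, MvPolynomial.eval₂ (valueAt u) (coord none y) (F t) = 0) ∧
    ∀ i, valueAt u (b i) * x i = valueAt u (a i) * y i}

/-- The Zilber-Pink conjecture for the curve `X`: only finitely many points of `X` are on special
subvarieties of codimension at least two, and each proper special subvariety contains only finitely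
many points of `X`. -/
def ZilberPink (Γ : Set ℂ) {n : ℕ} (X : Set (Fin n → ℂ)) : Prop :=
  {x | x ∈ X ∧ ∃ (r : ℕ) (Z : SpecialVariety Γ n r), r + 2 ≤ n ∧ x ∈ Z.locus}.Finite ∧
  ∀ (r : ℕ) (Z : SpecialVariety Γ n r), r < n → {x | x ∈ X ∧ x ∈ Z.locus}.Finite

/-- `h (u) ≠ 0` has a prime factor `p > D` which does not divide `ρ (u)`. -/
def HasGoodPrime {q : ℕ} (h ρ : MvPolynomial (Fin q) ℤ) (D : ℕ) (u : Fin q → ℤ) : Prop :=
  MvPolynomial.eval u h ≠ 0 ∧ ∃ p : ℕ, p.Prime ∧ D < p ∧ (p : ℤ) ∣ MvPolynomial.eval u h ∧
    ¬ (p : ℤ) ∣ MvPolynomial.eval u ρ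

/-- Special subvarieties in the form used in the proof. -/
def SpecialVariety.toSV {Γ : Set ℂ} {n r : ℕ} (Z : SpecialVariety Γ n r) :
    Pool.Agent.Y226.ZM.SV Γ n r where
  cls := Z.cls
  mat := Z.mat
  det_pos := Z.det_pos
  const := Z.const
  int := fun i => by
    rcases Z.allowed i with ⟨τ, hτ, h⟩ | h
    · rw [h]
      exact (singular_modulus_integral τ hτ).tower_top
    · exact h

/-- The Zilber-Pink conjecture for the members of families of curves with `q` parameters which
degenerate along one hypersurface to curves in general position. -/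
theorem result {n q : ℕ} {κ : Type} [Finite κ] (h : MvPolynomial (Fin q) ℤ)
    (hirr : Irreducible (MvPolynomial.map (Int.castRingHom ℂ) h))
    (F : κ → MvPolynomial (Fin n × Bool) (Parameters q)) (hF : GoodAlong h F)
    (a g : Fin n → Parameters q) (w : Fin n → ℕ) (hw : ∀ i, 0 < w i)
    (ha : ∀ i, ¬ toParameters h ∣ a i) (hg : ∀ i, ¬ toParameters h ∣ g i)
    (Γ : Set ℂ) (hΓ : Γ.Finite) (hΓa : ∀ γ ∈ Γ, IsAlgebraic ℚ γ)
    (j0 : Fin q) (hj0 : 0 < h.degreeOf j0) :
    ∃ (D : ℕ) (ρ : MvPolynomial (Fin q) ℤ), ρ ≠ 0 ∧ ρ.degreeOf j0 = 0 ∧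
      (∀ u : Fin q → ℤ, HasGoodPrime h ρ D u →
        ZilberPink Γ (scaledMember F a (fun i => toParameters h ^ w i * g i) u)) ∧
      ∀ ε : ℝ, 0 < ε → ∃ C : ℝ, ∀ H : ℕ, 1 ≤ H →
        ({u : Fin q → ℤ | (∀ j, |u j| ≤ H) ∧
          ¬ ZilberPink Γ (scaledMember F a (fun i => toParameters h ^ w i * g i) u)}.ncard : ℝ) ≤
          C * (H : ℝ) ^ ((q : ℝ) - 1 + ε) := by
  classical
  have hprime : Prime (toParameters h) := UniqueFactorizationMonoid.irreducible_iff_prime.1
    (Pool.Agent.X295.irr_of hirr)
  obtain ⟨Ω, _, _, _, e, he, halg⟩ := Pool.Agent.X295.exists_Omega (toParameters h) hprime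
  have hker : RingHom.ker e = Ideal.span {toParameters h} := by
    ext P
    rw [RingHom.mem_ker, he, Ideal.mem_span_singleton]
  have hgen : ∀ x : Fin n × Fin n, ∃ (a b : ℕ) (g : ℕ → ℕ → Parameters q), x.1 ≠ x.2 →
      e (g 0 0) ≠ 0 ∧ e (g a 0) ≠ 0 ∧ e (g 0 b) ≠ 0 ∧ e (g a b) ≠ 0 ∧
      (∀ c : Ω, ∃ v ≤ b, ∑ u ∈ Finset.range (a + 1), e (g u v) * c ^ u ≠ 0) ∧
      pairForm x.1 x.2 a b g ∈ Ideal.span (Set.range F) := by
    intro x
    by_cases hx : x.1 = x.2
    · exact ⟨0, 0, 0, fun h' => absurd hx h'⟩
    · obtain ⟨a, b, g, h1, h2, h3, h4, h5, h6⟩ := hF.general x.1 x.2 hx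
      exact ⟨a, b, g, fun _ => ⟨fun h' => h1 ((he _).1 h'), fun h' => h2 ((he _).1 h'),
        fun h' => h3 ((he _).1 h'), fun h' => h4 ((he _).1 h'), h5 Ω e hker, h6⟩⟩
  choose a' b' g' hg' using hgen
  have hGM : Pool.Agent.Y92.ZX.GM (∑ x, (a' x + b' x)) e F :=
    ⟨hF.form, hF.prime Ω e hker, hF.nonconstant Ω e hker, fun i j hij => by
      obtain ⟨h1, h2, h3, h4, h5, h6⟩ := hg' (i, j) hij
      have h7 : a' (i, j) + b' (i, j) ≤ ∑ x, (a' x + b' x) :=
        Finset.single_le_sum (f := fun x => a' x + b' x) (fun _ _ => Nat.zero_le _)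
          (Finset.mem_univ (i, j))
      exact ⟨a' (i, j), b' (i, j), g' (i, j), by omega, by omega, h1, h2, h3, h4, h5, h6⟩⟩
  obtain ⟨ρ, hρ, D, hD⟩ := Pool.Agent.X295.gen_fin n q κ _ F h hprime Ω e he halg hGM a g w hw
    ha hg Γ hΓ (fun γ hγ => ⟨⟨γ, mem_algebraicClosure_iff.2 (hΓa γ hγ)⟩, rfl⟩) j0
  -- the sets `X_u`
  have hval : ∀ (u : Fin q → ℤ) (P : Parameters q),
      Pool.Agent.Y226.rA (MvPolynomial.eval (fun l => ((u l : ℤ) : Pool.Agent.Y226.QA)) P) =
        valueAt u P := by
    intro u P
    have h1 : (Pool.Agent.Y226.rA).comp (MvPolynomial.eval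
        (fun l => ((u l : ℤ) : Pool.Agent.Y226.QA))) = valueAt u := by
      refine MvPolynomial.ringHom_ext (fun x => ?_) (fun l => ?_)
      · simp [valueAt, Pool.Agent.Y226.rA]
      · simp [valueAt]
    exact congrArg (fun f : Parameters q →+* ℂ => f P) h1
  have hset : ∀ (u : Fin q → ℤ) (x : Fin n → ℂ),
      x ∈ scaledMember F a (fun i => toParameters h ^ w i * g i) u →
      x ∈ Pool.Agent.X295.scaled F a (fun i => MvPolynomial.map (Int.castRingHom
        Pool.Agent.Y226.QA) h ^ w i * g i) (fun l => ((u l : ℤ) : Pool.Agent.Y226.QA)) := by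
    rintro u x ⟨y, hy, hx⟩
    refine ⟨y, fun t => ?_, fun i => ?_⟩
    · show MvPolynomial.eval₂ Pool.Agent.Y226.rA _ (MvPolynomial.map _ (F t)) = 0
      rw [MvPolynomial.eval₂_map]
      have h1 : (Pool.Agent.Y226.rA).comp (MvPolynomial.eval
          (fun l => ((u l : ℤ) : Pool.Agent.Y226.QA))) = valueAt u :=
        RingHom.ext (hval u)
      rw [h1]
      exact hy t
    · rw [hval, hval]
      exact hx i
  have hmain : ∀ u : Fin q → ℤ, HasGoodPrime h (MvPolynomial.rename Subtype.val ρ) D u →
      ZilberPink Γ (scaledMember F a (fun i => toParameters h ^ w i * g i) u) := by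
    intro u hu
    obtain ⟨h1, h2⟩ := hD u hu
    refine ⟨h1.subset ?_, fun r Z hr => (h2 r Z.toSV hr).subset ?_⟩
    · rintro x ⟨hx, r, Z, hr, hZ⟩
      exact ⟨hset u x hx, r, Z.toSV, hr, hZ⟩
    · rintro x ⟨hx, hZ⟩
      exact ⟨hset u x hx, hZ⟩
  have hdeg : 0 < (Pool.Agent.X295.asPoly j0 h).natDegree := by
    rw [Pool.Agent.X295.asPoly, MvPolynomial.natDegree_optionEquivLeft]
    have h3 : (MvPolynomial.rename (Equiv.optionSubtypeNe j0).symm h).degreeOf
        ((Equiv.optionSubtypeNe j0).symm j0) = h.degreeOf j0 :=
      MvPolynomial.degreeOf_rename_of_injective (Equiv.injective _) j0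
    rw [Equiv.optionSubtypeNe_symm_self] at h3
    omega
  refine ⟨D, MvPolynomial.rename Subtype.val ρ, ?_, ?_, hmain, fun ε hε => ?_⟩
  · intro h0
    exact hρ (MvPolynomial.rename_injective _ Subtype.val_injective (h0.trans (map_zero _).symm))
  · by_contra h0
    have h1 : j0 ∈ (MvPolynomial.rename Subtype.val ρ).vars :=
      MvPolynomial.mem_vars_iff_degreeOf_ne_zero.2 h0
    obtain ⟨x, -, hx⟩ := Finset.mem_image.1 (MvPolynomial.vars_rename _ _ h1)
    exact x.2 hx
  · obtain ⟨C, hC⟩ := Pool.Agent.X295.count_union (M := 1) (fun _ => h) (fun _ => j0)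
      (fun _ => hdeg) (fun _ => ρ) (fun _ => hρ) D hε
      {u | ¬ ZilberPink Γ (scaledMember F a (fun i => toParameters h ^ w i * g i) u)}
      (fun u hu => ⟨0, fun hgood => hu (hmain u hgood)⟩)
    refine ⟨C, fun H hH => ?_⟩
    have h1 : {u : Fin q → ℤ | (∀ j, |u j| ≤ H) ∧
          ¬ ZilberPink Γ (scaledMember F a (fun i => toParameters h ^ w i * g i) u)} =
        {u | ¬ ZilberPink Γ (scaledMember F a (fun i => toParameters h ^ w i * g i) u)} ∩
          {u | ∀ j, |u j| ≤ H} := by
      ext u
      exact and_comm
    rw [h1]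
    exact hC H hH

end Pool.Agent.Results.MP_d83ecd_ag.OneDegenerateDivisor
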