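import Pool.Agent.X295.Sub4
import Pool.Agent.X295.GenOm

/-!
# MP_d83ecd_ag: Zilber-Pink for the members of families of curves in `Y(1)^n` no member of which
degenerates completely: divisors along which only some of the coordinates tend to the cusp

`Y(1)^n` is identified with `ℂ^n` by the elliptic modular function `jj = j = E₄³ / Δ`. A special
subvariety of `Y(1)^n` of dimension `r` is given by a `SpecialVariety`: its points are the points
`x` with `x_i = const_i` for the constant coordinates, and `x_i = j (g_i z_l)` for the coordinates of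
class `l`, `z_1, …, z_r` free in the upper half plane and `g_i` a fixed integral matrix of positive
determinant. In the definition of special subvarieties the constants are values of `j` at CM points.
We allow also all constants which are integral over the ring generated by a given finite set `Γ` of
algebraic numbers.

**Families of curves.** Let `X_u ⊂ Y(1)^n` be an algebraic family with the parameters
`u = (u_1, …, u_q)`, given by the equations `F_t (u; x_1, …, x_n) = 0` with algebraic coefficients, such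
that for all integral `u` with `ρ₀ (u) ≠ 0`, for a polynomial `ρ₀ ≠ 0`, the set `X_u` contains only
finitely many points with a given value of one of its coordinates. (So `X_u` is a curve without
components on which one of the coordinates is constant.)

**Partial degeneration.** Let `h_1, …, h_M` be polynomials in `u` with integral coefficients,
irreducible over `ℂ`, and for each `k` let `I_k = {σ_k 0, σ_k 1, …}` be a proper subset of the set
of the coordinates. We assume that along the divisor `h_k = 0` of the space of parameters the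
coordinates `x_i`, `i ∈ I_k`, tend to the cusp in the following sense (`DegeneratesIn`): the projection
of `X_u` to these coordinates is contained in the family of all `x` with
`h_k (u) ^ w_i g_i (u) x_i = a_i (u) y_i`, `y ∈ V_u ∩ ℂ^{I_k}`, where `V_u ⊂ (P¹)^{I_k}` is a family given
by forms, `w_i > 0`, the polynomials `a_i`, `g_i` are not divisible by `h_k`, and the generic member of
the family `V_u` over `h_k = 0` is a geometrically integral curve in general position (`GoodAlong`: the
zeros and poles of `y_i` on it are different from those of `y_j`, and no `y_i` is constant). Nothing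
is assumed about the other coordinates near `h_k = 0`: they can be finite, or have poles and zeros at
arbitrary points, and the genera and moduli of the members are arbitrary.

**Theorem.** Suppose that each set of at most four coordinates is contained in one of the proper
subsets `I_k`; for example, `M = 5`, and `I_1, …, I_5` are the complements of five
different coordinates. Then for all `ε > 0` all but `O(H^(q - 1 + ε))` of the curves `X_u`, `u` integral
with `|u_j| ≤ H`, satisfy the Zilber-Pink conjecture: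

* there are only finitely many points of `X_u` on special subvarieties of codimension at least two,
* each proper special subvariety of `Y(1)^n` contains only finitely many points of `X_u`.

More precisely, if `h_k` contains the variable `u_{j_k}` for all `k`, then there are a number `D`
and polynomials `ρ_k ≠ 0` with integral coefficients, where `ρ_k` does not contain `u_{j_k}`, such that
the conjecture is true for `X_u` if `ρ₀ (u) ≠ 0` and each of the numbers `h_k (u) ≠ 0` has a prime factor
`p > D` which does not divide `ρ_k (u)`.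

For example, let `V` be a curve in `(P¹)^5` in general position, and let `X_u` be the curve of all `x`
with `x_i ∏_{k ≠ i} u_k = y_i`, `y ∈ V`. If `u` tends to a general point of the divisor `u_k = 0` then
the coordinates `x_i`, `i ≠ k`, tend to the cusp, but `x_k` does not.

Earlier results: in all of the results of the starting files and in our other results, all coordinates
tend to cusps at the degenerate members (at the same divisor, or at the same prime number), so that the
family degenerates to the point `(∞, …, ∞)` of the boundary of `Y(1)^n`. Here no member of the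
family degenerates completely: the families only meet the other strata `Y(1)^{J} × {∞}^{I}` of
the boundary. The proof: a point on a special subvariety of codimension two has a projection to at most
four coordinates which is on a special subvariety of codimension two; this gives a finite set in
the projection to the coordinates in `I_k`, by the arithmetic at the places over a prime factor of
`h_k (u)` (helper file `Pool.Agent.X295.GenMain`, which uses the local theorem of the starting file
`Pool.Agent.Y92.ZX.Core`), different places for different sets of coordinates.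
-/

set_option autoImplicit false

namespace Pool.Agent.Results.MP_d83ecd_ag.PartialDegeneration

open H294ZP UpperHalfPlane

/-- A special subvariety of dimension `r` of `Y(1)^n`. The constant coordinates are those with
`cls i = none`. The allowed constants are the singular moduli and the numbers which are integral
over the ring generated by `Γ`. -/
structure SpecialVariety (Γ : Set ℂ) (n r : ℕ) where
  cls : Fin n → Option (Fin r)
  surj : ∀ l : Fin r, ∃ i, cls i = some l
  mat : Fin n → Matrix (Fin 2) (Fin 2) ℤ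
  det_pos : ∀ i, 0 < (mat i).det
  const : Fin n → ℂ
  allowed : ∀ i, (∃ τ : ℍ, IsCM τ ∧ const i = jj τ) ∨ IsIntegral (Algebra.adjoin ℤ Γ) (const i)

/-- The points of a special subvariety of `Y(1)^n`. -/
def SpecialVariety.locus {Γ : Set ℂ} {n r : ℕ} (Z : SpecialVariety Γ n r) : Set (Fin n → ℂ) :=
  {x | ∃ z : Fin r → ℍ, ∀ i, (Z.cls i = none → x i = Z.const i) ∧
    ∀ l, Z.cls i = some l → ∃ w : ℍ,
      (w : ℂ) * (Z.mat i 1 0 * z l + Z.mat i 1 1) = Z.mat i 0 0 * z l + Z.mat i 0 1 ∧
      x i = jj w}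

/-- The homogeneous coordinates of the point with affine coordinates `y` in the chart `c` of
`(P¹)^n`. In the chart `none` they are `X_i = y_i`, `Z_i = 1` for all `i`, in the chart `some a`
they are `X_a = 1`, `Z_a = y_a`, and `X_i = y_i`, `Z_i = 1` for `i ≠ a`. -/
def coord {A : Type} [CommRing A] {n : ℕ} (c : Option (Fin n)) (y : Fin n → A)
    (q : Fin n × Bool) : A :=
  if c = some q.1 then (if q.2 then y q.1 else 1) else (if q.2 then 1 else y q.1)

/-- `F` is homogeneous in each pair of variables `(X_i, Z_i) = ((i, false), (i, true))`. -/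
def Multihomogeneous {A : Type} [CommRing A] {n : ℕ} (F : MvPolynomial (Fin n × Bool) A) : Prop :=
  ∃ δ : Fin n → ℕ, ∀ m ∈ F.support, ∀ i, m (i, false) + m (i, true) = δ i

/-- The form `∑ g_{uv} X_i ^ u Z_i ^ (a - u) X_j ^ v Z_j ^ (b - v)`. -/
noncomputable def pairForm {A : Type} [CommRing A] {n : ℕ} (i j : Fin n) (a b : ℕ)
    (g : ℕ → ℕ → A) : MvPolynomial (Fin n × Bool) A :=
  ∑ u ∈ Finset.range (a + 1), ∑ v ∈ Finset.range (b + 1),
    MvPolynomial.C (g u v) * MvPolynomial.X (i, false) ^ u * MvPolynomial.X (i, true) ^ (a - u) *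
      MvPolynomial.X (j, false) ^ v * MvPolynomial.X (j, true) ^ (b - v)

/-- The ring of the polynomials in the parameters over the field of the algebraic numbers. -/
abbrev Parameters (q : ℕ) : Type := MvPolynomial (Fin q) (algebraicClosure ℚ ℂ)

/-- A polynomial with integral coefficients as a polynomial over the algebraic numbers. -/
noncomputable def toParameters {q : ℕ} (h : MvPolynomial (Fin q) ℤ) : Parameters q :=
  MvPolynomial.map (Int.castRingHom (algebraicClosure ℚ ℂ)) h

/-- The ideal in the chart `c` of the member of the family at the point of the space of the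
parameters with values in the field `k` given by `π`. -/
noncomputable def chartIdeal {k : Type} [Field k] {n q : ℕ} {κ : Type} (π : Parameters q →+* k)
    (F : κ → MvPolynomial (Fin n × Bool) (Parameters q)) (c : Option (Fin n)) :
    Ideal (MvPolynomial (Fin n) k) :=
  Ideal.span (Set.range fun t =>
    MvPolynomial.eval₂ (MvPolynomial.C.comp π) (coord c MvPolynomial.X) (F t))

/-- The family is given by forms, and its generic member over the hypersurface `h = 0` is integral
and in general position. -/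
structure GoodAlong {n q : ℕ} {κ : Type} (h : MvPolynomial (Fin q) ℤ)
    (F : κ → MvPolynomial (Fin n × Bool) (Parameters q)) : Prop where
  form : ∀ t, Multihomogeneous (F t)
  prime : ∀ (k : Type) [Field k] [IsAlgClosed k] (π : Parameters q →+* k),
    RingHom.ker π = Ideal.span {toParameters h} → ∀ c, (chartIdeal π F c).IsPrime
  nonconstant : ∀ (k : Type) [Field k] [IsAlgClosed k] (π : Parameters q →+* k),
    RingHom.ker π = Ideal.span {toParameters h} → ∀ (i : Fin n) (c : k),
      MvPolynomial.X i - MvPolynomial.C c ∉ chartIdeal π F none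
  general : ∀ i j : Fin n, i ≠ j → ∃ (a b : ℕ) (g : ℕ → ℕ → Parameters q),
    ¬ toParameters h ∣ g 0 0 ∧ ¬ toParameters h ∣ g a 0 ∧ ¬ toParameters h ∣ g 0 b ∧
    ¬ toParameters h ∣ g a b ∧
    (∀ (k : Type) [Field k] [IsAlgClosed k] (π : Parameters q →+* k),
      RingHom.ker π = Ideal.span {toParameters h} →
      ∀ c : k, ∃ v ≤ b, ∑ u ∈ Finset.range (a + 1), π (g u v) * c ^ u ≠ 0) ∧
    pairForm i j a b g ∈ Ideal.span (Set.range F)

/-- The value at `u` of a polynomial in the parameters. -/
noncomputable def valueAt {q : ℕ} (u : Fin q → ℤ) : Parameters q →+* ℂ :=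
  MvPolynomial.eval₂Hom (algebraMap (algebraicClosure ℚ ℂ) ℂ) fun l => (u l : ℂ)

/-- The set `X_u`: all `x` with `b_i (u) x_i = a_i (u) y_i` for a point `y` of `V_u ∩ ℂ^n`. -/
def scaledMember {n q : ℕ} {κ : Type} (F : κ → MvPolynomial (Fin n × Bool) (Parameters q))
    (a b : Fin n → Parameters q) (u : Fin q → ℤ) : Set (Fin n → ℂ) :=
  {x | ∃ y : Fin n → ℂ, (∀ t, MvPolynomial.eval₂ (valueAt u) (coord none y) (F t) = 0) ∧
    ∀ i, valueAt u (b i) * x i = valueAt u (a i) * y i}

/-- The Zilber-Pink conjecture for the curve `X`: only finitely many points of `X` are on special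
subvarieties of codimension at least two, and each proper special subvariety contains only finitely
many points of `X`. -/
def ZilberPink (Γ : Set ℂ) {n : ℕ} (X : Set (Fin n → ℂ)) : Prop :=
  {x | x ∈ X ∧ ∃ (r : ℕ) (Z : SpecialVariety Γ n r), r + 2 ≤ n ∧ x ∈ Z.locus}.Finite ∧
  ∀ (r : ℕ) (Z : SpecialVariety Γ n r), r < n → {x | x ∈ X ∧ x ∈ Z.locus}.Finite

/-- `h (u) ≠ 0` has a prime factor `p > D` which does not divide `ρ (u)`. -/
def HasGoodPrime {q : ℕ} (h ρ : MvPolynomial (Fin q) ℤ) (D : ℕ) (u : Fin q → ℤ) : Prop :=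
  MvPolynomial.eval u h ≠ 0 ∧ ∃ p : ℕ, p.Prime ∧ D < p ∧ (p : ℤ) ∣ MvPolynomial.eval u h ∧
    ¬ (p : ℤ) ∣ MvPolynomial.eval u ρ

/-- Special subvarieties in the form used in the proof. -/
def SpecialVariety.toSV {Γ : Set ℂ} {n r : ℕ} (Z : SpecialVariety Γ n r) :
    Pool.Agent.Y226.ZM.SV Γ n r where
  cls := Z.cls
  mat := Z.mat
  det_pos := Z.det_pos
  const := Z.const
  int := fun i => by
    rcases Z.allowed i with ⟨τ, hτ, h⟩ | h
    · rw [h]
      exact (singular_modulus_integral τ hτ).tower_top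
    · exact h

/-- The member `X_u ⊂ Y(1)^n` of the family given by the equations `F_t (u; x) = 0`. -/
def member {n q : ℕ} {κ : Type} (F : κ → MvPolynomial (Fin n) (Parameters q))
    (u : Fin q → ℤ) : Set (Fin n → ℂ) :=
  {x | ∀ t, MvPolynomial.eval₂ (valueAt u) x (F t) = 0}

/-- The coordinates `x_{σ 0}, x_{σ 1}, …` of the family `X_u` tend to the cusp along the divisor
`h = 0`, and the generic degenerate curve (after scaling) is in general position. -/
def DegeneratesIn {n m q : ℕ} {κ : Type} (F : κ → MvPolynomial (Fin n) (Parameters q))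
    (ρ₀ h : MvPolynomial (Fin q) ℤ) (σ : Fin m → Fin n) : Prop :=
  ∃ (κ' : Type) (_ : Finite κ') (V : κ' → MvPolynomial (Fin m × Bool) (Parameters q))
    (a g : Fin m → Parameters q) (w : Fin m → ℕ),
    GoodAlong h V ∧ (∀ i, 0 < w i) ∧ (∀ i, ¬ toParameters h ∣ a i) ∧
    (∀ i, ¬ toParameters h ∣ g i) ∧
    ∀ u : Fin q → ℤ, MvPolynomial.eval u ρ₀ ≠ 0 → ∀ x ∈ member F u,
      (fun i => x (σ i)) ∈ scaledMember V a (fun i => toParameters h ^ w i * g i) u

/-- One divisor. -/
theorem one {m q : ℕ} {κ : Type} [Finite κ] (h : MvPolynomial (Fin q) ℤ)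
    (hirr : Irreducible (MvPolynomial.map (Int.castRingHom ℂ) h))
    (F : κ → MvPolynomial (Fin m × Bool) (Parameters q)) (hF : GoodAlong h F)
    (a g : Fin m → Parameters q) (w : Fin m → ℕ) (hw : ∀ i, 0 < w i)
    (ha : ∀ i, ¬ toParameters h ∣ a i) (hg : ∀ i, ¬ toParameters h ∣ g i)
    (Γ : Set ℂ) (hΓ : Γ.Finite) (hΓa : ∀ γ ∈ Γ, IsAlgebraic ℚ γ) (j0 : Fin q) :
    ∃ (D : ℕ) (ρ : MvPolynomial {j : Fin q // j ≠ j0} ℤ), ρ ≠ 0 ∧
      ∀ u : Fin q → ℤ, Pool.Agent.X295.Good h (MvPolynomial.rename Subtype.val ρ) D u →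
        {x | x ∈ scaledMember F a (fun i => toParameters h ^ w i * g i) u ∧
          ∃ (r : ℕ) (Z : Pool.Agent.Y226.ZM.SV Γ m r), r + 2 ≤ m ∧ x ∈ Z.locus}.Finite ∧
        ∀ (r : ℕ) (Z : Pool.Agent.Y226.ZM.SV Γ m r), r < m →
          {x | x ∈ scaledMember F a (fun i => toParameters h ^ w i * g i) u ∧
            x ∈ Z.locus}.Finite := by
  classical
  have hprime : Prime (toParameters h) := UniqueFactorizationMonoid.irreducible_iff_prime.1
    (Pool.Agent.X295.irr_of hirr)
  obtain ⟨Ω, _, _, _, e, he, halg⟩ := Pool.Agent.X295.exists_Omega (toParameters h) hprime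
  have hker : RingHom.ker e = Ideal.span {toParameters h} := by
    ext P
    rw [RingHom.mem_ker, he, Ideal.mem_span_singleton]
  have hgen : ∀ x : Fin m × Fin m, ∃ (a b : ℕ) (g : ℕ → ℕ → Parameters q), x.1 ≠ x.2 →
      e (g 0 0) ≠ 0 ∧ e (g a 0) ≠ 0 ∧ e (g 0 b) ≠ 0 ∧ e (g a b) ≠ 0 ∧
      (∀ c : Ω, ∃ v ≤ b, ∑ u ∈ Finset.range (a + 1), e (g u v) * c ^ u ≠ 0) ∧
      pairForm x.1 x.2 a b g ∈ Ideal.span (Set.range F) := by
    intro x
    by_cases hx : x.1 = x.2
    · exact ⟨0, 0, 0, fun h' => absurd hx h'⟩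
    · obtain ⟨a, b, g, h1, h2, h3, h4, h5, h6⟩ := hF.general x.1 x.2 hx
      exact ⟨a, b, g, fun _ => ⟨fun h' => h1 ((he _).1 h'), fun h' => h2 ((he _).1 h'),
        fun h' => h3 ((he _).1 h'), fun h' => h4 ((he _).1 h'), h5 Ω e hker, h6⟩⟩
  choose a' b' g' hg' using hgen
  have hGM : Pool.Agent.Y92.ZX.GM (∑ x, (a' x + b' x)) e F :=
    ⟨hF.form, hF.prime Ω e hker, hF.nonconstant Ω e hker, fun i j hij => by
      obtain ⟨h1, h2, h3, h4, h5, h6⟩ := hg' (i, j) hij
      have h7 : a' (i, j) + b' (i, j) ≤ ∑ x, (a' x + b' x) :=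
        Finset.single_le_sum (f := fun x => a' x + b' x) (fun _ _ => Nat.zero_le _)
          (Finset.mem_univ (i, j))
      exact ⟨a' (i, j), b' (i, j), g' (i, j), by omega, by omega, h1, h2, h3, h4, h5, h6⟩⟩
  obtain ⟨ρ, hρ, D, hD⟩ := Pool.Agent.X295.gen_fin m q κ _ F h hprime Ω e he halg hGM a g w hw
    ha hg Γ hΓ (fun γ hγ => ⟨⟨γ, mem_algebraicClosure_iff.2 (hΓa γ hγ)⟩, rfl⟩) j0
  have hval : ∀ (u : Fin q → ℤ) (P : Parameters q),
      Pool.Agent.Y226.rA (MvPolynomial.eval (fun l => ((u l : ℤ) : Pool.Agent.Y226.QA)) P) =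
        valueAt u P := by
    intro u P
    have h1 : (Pool.Agent.Y226.rA).comp (MvPolynomial.eval
        (fun l => ((u l : ℤ) : Pool.Agent.Y226.QA))) = valueAt u := by
      refine MvPolynomial.ringHom_ext (fun x => ?_) (fun l => ?_)
      · simp [valueAt, Pool.Agent.Y226.rA]
      · simp [valueAt]
    exact congrArg (fun f : Parameters q →+* ℂ => f P) h1
  have hset : ∀ (u : Fin q → ℤ) (x : Fin m → ℂ),
      x ∈ scaledMember F a (fun i => toParameters h ^ w i * g i) u →
      x ∈ Pool.Agent.X295.scaled F a (fun i => MvPolynomial.map (Int.castRingHom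
        Pool.Agent.Y226.QA) h ^ w i * g i) (fun l => ((u l : ℤ) : Pool.Agent.Y226.QA)) := by
    rintro u x ⟨y, hy, hx⟩
    refine ⟨y, fun t => ?_, fun i => ?_⟩
    · show MvPolynomial.eval₂ Pool.Agent.Y226.rA _ (MvPolynomial.map _ (F t)) = 0
      rw [MvPolynomial.eval₂_map]
      have h1 : (Pool.Agent.Y226.rA).comp (MvPolynomial.eval
          (fun l => ((u l : ℤ) : Pool.Agent.Y226.QA))) = valueAt u :=
        RingHom.ext (hval u)
      rw [h1]
      exact hy t
    · rw [hval, hval]
      exact hx i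
  refine ⟨D, ρ, hρ, fun u hu => ?_⟩
  obtain ⟨h1, h2⟩ := hD u hu
  refine ⟨h1.subset ?_, fun r Z hr => (h2 r Z hr).subset ?_⟩
  · rintro x ⟨hx, r, Z, hr, hZ⟩
    exact ⟨hset u x hx, r, Z, hr, hZ⟩
  · rintro x ⟨hx, hZ⟩
    exact ⟨hset u x hx, hZ⟩

/-- A polynomial which contains a variable. -/
theorem natDegree_asPoly {q : ℕ} (h : MvPolynomial (Fin q) ℤ) (j0 : Fin q)
    (hj0 : 0 < h.degreeOf j0) : 0 < (Pool.Agent.X295.asPoly j0 h).natDegree := by
  rw [Pool.Agent.X295.asPoly, MvPolynomial.natDegree_optionEquivLeft]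
  have h3 : (MvPolynomial.rename (Equiv.optionSubtypeNe j0).symm h).degreeOf
      ((Equiv.optionSubtypeNe j0).symm j0) = h.degreeOf j0 :=
    MvPolynomial.degreeOf_rename_of_injective (Equiv.injective _) j0
  rw [Equiv.optionSubtypeNe_symm_self] at h3
  omega

/-- The number of the zeros of a polynomial in a box. -/
theorem zeros {q : ℕ} (ρ₀ : MvPolynomial (Fin q) ℤ) (hρ₀ : ρ₀ ≠ 0) {ε : ℝ} (hε : 0 < ε) :
    ∃ C : ℝ, ∀ H : ℕ, 1 ≤ H →
      (({u : Fin q → ℤ | MvPolynomial.eval u ρ₀ = 0} ∩ {u | ∀ j, |u j| ≤ (H : ℤ)}).ncard : ℝ) ≤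
        C * (H : ℝ) ^ ((q : ℝ) - 1 + ε) := by
  by_cases hj : ∃ j0, 0 < ρ₀.degreeOf j0
  · obtain ⟨j0, hj0⟩ := hj
    exact Pool.Agent.X295.count_union (M := 1) (fun _ => ρ₀) (fun _ => j0)
      (fun _ => natDegree_asPoly ρ₀ j0 hj0) (fun _ => 1) (fun _ => one_ne_zero) 0 hε
      {u | MvPolynomial.eval u ρ₀ = 0} (fun u hu => ⟨0, fun hgood => hgood.1 hu⟩)
  · push Not at hj
    have h1 : ρ₀.vars = ∅ := by
      rw [Finset.eq_empty_iff_forall_notMem]
      intro j hj'
      exact (MvPolynomial.mem_vars_iff_degreeOf_ne_zero.1 hj') (Nat.le_zero.1 (hj j))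
    have h1' := MvPolynomial.vars_eq_empty_iff_eq_C.1 h1
    refine ⟨0, fun H _ => ?_⟩
    have h2 : {u : Fin q → ℤ | MvPolynomial.eval u ρ₀ = 0} = ∅ := by
      refine Set.eq_empty_of_forall_notMem fun u (hu : MvPolynomial.eval u ρ₀ = 0) => ?_
      rw [h1', MvPolynomial.eval_C] at hu
      exact hρ₀ (by rw [h1', hu, map_zero])
    rw [h2, Set.empty_inter, Set.ncard_empty]
    simp

/-- The Zilber-Pink conjecture for the members of families of curves with `q` parameters along whose
divisors `h_k = 0` only the coordinates in proper subsets `I_k` tend to the cusp, where each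
set of at most four coordinates is in one of the `I_k`. -/
theorem result {n q M : ℕ} {κ : Type} (F : κ → MvPolynomial (Fin n) (Parameters q))
    (ρ₀ : MvPolynomial (Fin q) ℤ) (hρ₀ : ρ₀ ≠ 0)
    (hcurve : ∀ u : Fin q → ℤ, MvPolynomial.eval u ρ₀ ≠ 0 → ∀ (i : Fin n) (c : ℂ),
      {x | x ∈ member F u ∧ x i = c}.Finite)
    (h : Fin M → MvPolynomial (Fin q) ℤ)
    (hirr : ∀ k, Irreducible (MvPolynomial.map (Int.castRingHom ℂ) (h k)))
    (m : Fin M → ℕ) (_hm : ∀ k, m k < n) (σ : ∀ k, Fin (m k) → Fin n)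
    (hσ : ∀ k, Function.Injective (σ k))
    (hcover : ∀ s : Finset (Fin n), s.card ≤ 4 → ∃ k, ∀ i ∈ s, ∃ t, σ k t = i)
    (hdeg : ∀ k, DegeneratesIn F ρ₀ (h k) (σ k))
    (Γ : Set ℂ) (hΓ : Γ.Finite) (hΓa : ∀ γ ∈ Γ, IsAlgebraic ℚ γ)
    (j0 : Fin M → Fin q) (hj0 : ∀ k, 0 < (h k).degreeOf (j0 k)) :
    ∃ (D : ℕ) (ρ : Fin M → MvPolynomial (Fin q) ℤ),
      (∀ k, ρ k ≠ 0 ∧ (ρ k).degreeOf (j0 k) = 0) ∧
      (∀ u : Fin q → ℤ, MvPolynomial.eval u ρ₀ ≠ 0 → (∀ k, HasGoodPrime (h k) (ρ k) D u) →
        ZilberPink Γ (member F u)) ∧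
      ∀ ε : ℝ, 0 < ε → ∃ C : ℝ, ∀ H : ℕ, 1 ≤ H →
        ({u : Fin q → ℤ | (∀ j, |u j| ≤ H) ∧ ¬ ZilberPink Γ (member F u)}.ncard : ℝ) ≤
          C * (H : ℝ) ^ ((q : ℝ) - 1 + ε) := by
  classical
  choose κ' hκ' V a g w hV hw ha hg hsub using hdeg
  have hone := fun k => one (h k) (hirr k) (V k) (hV k) (a k) (g k) (w k) (hw k) (ha k) (hg k) Γ
    hΓ hΓa (j0 k)
  choose D ρ hρ hD using hone
  -- a common bound for the prime factors
  have hmono : ∀ (k : Fin M) (u : Fin q → ℤ),
      Pool.Agent.X295.Good (h k) (MvPolynomial.rename Subtype.val (ρ k)) (∑ k, D k) u →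
      Pool.Agent.X295.Good (h k) (MvPolynomial.rename Subtype.val (ρ k)) (D k) u := by
    rintro k u ⟨h1, p, hp, hpD, h2, h3⟩
    exact ⟨h1, p, hp, lt_of_le_of_lt (Finset.single_le_sum (f := D) (fun _ _ => Nat.zero_le _)
      (Finset.mem_univ k)) hpD, h2, h3⟩
  have hmain : ∀ u : Fin q → ℤ, MvPolynomial.eval u ρ₀ ≠ 0 →
      (∀ k, HasGoodPrime (h k) (MvPolynomial.rename Subtype.val (ρ k)) (∑ k, D k) u) →
      ZilberPink Γ (member F u) := by
    intro u hu hgood
    have hfin := fun k => hD k u (hmono k u (hgood k))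
    -- the fibres of the projections
    have hfib : ∀ (k : Fin M) (t₀ : Fin (m k)) (S : Set (Fin (m k) → ℂ)), S.Finite →
        {x | x ∈ member F u ∧ (fun t => x (σ k t)) ∈ S}.Finite := by
      intro k t₀ S hS
      refine (hS.biUnion fun y _ => hcurve u hu (σ k t₀) (y t₀)).subset ?_
      rintro x ⟨hx, hxS⟩
      exact Set.mem_biUnion hxS ⟨hx, rfl⟩
    have hk0 : ∀ {r c : ℕ} (k : Fin M) (Z : Pool.Agent.Y226.ZM.SV Γ (m k) r), 0 < c →
        r + c ≤ m k → Nonempty (Fin (m k)) := fun k Z hc hr => ⟨⟨0, by omega⟩⟩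
    constructor
    · have hU : (⋃ k : Fin M, {x | x ∈ member F u ∧ ∃ _ : Fin (m k), (fun t => x (σ k t)) ∈
          {y | y ∈ scaledMember (V k) (a k) (fun i => toParameters (h k) ^ w k i * g k i) u ∧
            ∃ (r : ℕ) (Z : Pool.Agent.Y226.ZM.SV Γ (m k) r), r + 2 ≤ m k ∧
              y ∈ Z.locus}}).Finite := by
        refine Set.finite_iUnion fun k => ?_
        by_cases hne : Nonempty (Fin (m k))
        · obtain ⟨t₀⟩ := hne
          refine (hfib k t₀ _ (hfin k).1).subset ?_
          rintro x ⟨hx, -, hxS⟩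
          exact ⟨hx, hxS⟩
        · refine Set.finite_empty.subset ?_
          rintro x ⟨-, t, -⟩
          exact (hne ⟨t⟩).elim
      refine hU.subset ?_
      rintro x ⟨hx, r, Z, hr, hZ⟩
      obtain ⟨s, hs, hpr⟩ := Pool.Agent.X295.SV_witness Z.toSV hr
      obtain ⟨k, hk⟩ := hcover s (by omega)
      obtain ⟨r', Z', hr', hZ'⟩ := hpr (m k) (σ k) (hσ k) hk
      exact Set.mem_iUnion.2 ⟨k, hx, ⟨0, by omega⟩, hsub k u hu x hx, r', Z', hr', hZ' x hZ⟩
    · intro r Z hr
      obtain ⟨s, hs, hpr⟩ := Pool.Agent.X295.SV_witness (c := 1) Z.toSV hr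
      obtain ⟨k, hk⟩ := hcover s (by omega)
      obtain ⟨r', Z', hr', hZ'⟩ := hpr (m k) (σ k) (hσ k) hk
      refine (hfib k ⟨0, by omega⟩ _ ((hfin k).2 r' Z' (by omega))).subset ?_
      rintro x ⟨hx, hZ⟩
      exact ⟨hx, hsub k u hu x hx, hZ' x hZ⟩
  refine ⟨∑ k, D k, fun k => MvPolynomial.rename Subtype.val (ρ k), fun k => ⟨?_, ?_⟩, hmain,
    fun ε hε => ?_⟩
  · intro h0
    exact hρ k (MvPolynomial.rename_injective _ Subtype.val_injective
      (h0.trans (map_zero _).symm))
  · by_contra h0
    have h1 : j0 k ∈ (MvPolynomial.rename Subtype.val (ρ k)).vars :=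
      MvPolynomial.mem_vars_iff_degreeOf_ne_zero.2 h0
    obtain ⟨x, -, hx⟩ := Finset.mem_image.1 (MvPolynomial.vars_rename _ _ h1)
    exact x.2 hx
  · obtain ⟨C₁, hC₁⟩ := zeros ρ₀ hρ₀ hε
    obtain ⟨C₂, hC₂⟩ := Pool.Agent.X295.count_union h j0
      (fun k => natDegree_asPoly (h k) (j0 k) (hj0 k)) ρ hρ (∑ k, D k) hε
      {u | MvPolynomial.eval u ρ₀ ≠ 0 ∧ ¬ ZilberPink Γ (member F u)}
      (fun u hu => by
        by_contra hcon
        push Not at hcon
        exact hu.2 (hmain u hu.1 hcon))
    refine ⟨C₁ + C₂, fun H hH => ?_⟩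
    have hbox : {u : Fin q → ℤ | ∀ j, |u j| ≤ (H : ℤ)}.Finite := by
      refine (Finset.finite_toSet (Pool.Agent.X295.box q H)).subset fun u hu => ?_
      exact Pool.Agent.X295.mem_box.2 hu
    have hsub' : {u : Fin q → ℤ | (∀ j, |u j| ≤ H) ∧ ¬ ZilberPink Γ (member F u)} ⊆
        ({u : Fin q → ℤ | MvPolynomial.eval u ρ₀ = 0} ∩ {u | ∀ j, |u j| ≤ (H : ℤ)}) ∪
        ({u | MvPolynomial.eval u ρ₀ ≠ 0 ∧ ¬ ZilberPink Γ (member F u)} ∩
          {u | ∀ j, |u j| ≤ (H : ℤ)}) := by
      rintro u ⟨hu, hz⟩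
      by_cases h0 : MvPolynomial.eval u ρ₀ = 0
      · exact Or.inl ⟨h0, hu⟩
      · exact Or.inr ⟨⟨h0, hz⟩, hu⟩
    have h1 := Set.ncard_le_ncard hsub' ((hbox.subset Set.inter_subset_right).union
      (hbox.subset Set.inter_subset_right))
    have h2 := h1.trans (Set.ncard_union_le _ _)
    have h3 : ({u : Fin q → ℤ | (∀ j, |u j| ≤ H) ∧ ¬ ZilberPink Γ (member F u)}.ncard : ℝ) ≤
        (({u : Fin q → ℤ | MvPolynomial.eval u ρ₀ = 0} ∩
          {u | ∀ j, |u j| ≤ (H : ℤ)}).ncard : ℝ) +
        (({u | MvPolynomial.eval u ρ₀ ≠ 0 ∧ ¬ ZilberPink Γ (member F u)} ∩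
          {u : Fin q → ℤ | ∀ j, |u j| ≤ (H : ℤ)}).ncard : ℝ) := by exact_mod_cast h2
    rw [add_mul]
    exact h3.trans (add_le_add (hC₁ H hH) (hC₂ H hH))

end Pool.Agent.Results.MP_d83ecd_ag.PartialDegeneration
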